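import Pool.Agent.W601.RP.Stm2

set_option autoImplicit false
open scoped Classical
open Filter Topology

namespace Pool.Agent.W778.RP

open Pool.Agent.W601.RP

theorem smul_coe (n : ℕ) (y : ℝ) (m : ℕ) (h : (n : ℝ) * y = m) : n • ((y : ℝ) : TT) = 0 := by
  have h1 : n • ((y : ℝ) : TT) = (((n : ℝ) * y : ℝ) : TT) := by
    rw [← nsmul_eq_mul]
    rfl
  rw [h1, h]
  exact (AddCircle.coe_eq_zero_iff (1 : ℝ)).2 ⟨m, by simp⟩

theorem xv : S_NODE → S_XV := by
  intro hn q t
  unfold x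
  split_ifs with h1 h2
  · obtain ⟨-, -, -, -, hc1, hct, -, -⟩ := hn.2.2.1 t h1.1
    obtain ⟨m, hm⟩ : (lt t).1 ∣ (t + 1).factorial := Nat.dvd_factorial (by omega) (by omega)
    refine smul_coe _ _ m ?_
    have hc : ((lt t).1 : ℝ) ≠ 0 := Nat.cast_ne_zero.2 (by omega)
    unfold N
    rw [hm]
    push_cast
    field_simp
  · exact smul_zero _
  · unfold gam
    refine smul_coe _ _ (q t / 2) ?_
    have hN : (N t : ℝ) ≠ 0 := Nat.cast_ne_zero.2 (by unfold N; positivity)
    field_simp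

end Pool.Agent.W778.RP
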